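import Pool.Agent.V1156.Ins.Main

/-!
# Gonality of preimages of lines under maps of minimal degree: a counterexample

Let `k` be an algebraically closed field of characteristic two. The surface
`x_0 y_0 ^ 2 + x_1 y_1 ^ 2 + x_2 y_2 ^ 2 = x_0 ^ 2 y_0 + x_1 ^ 2 y_1 + x_2 ^ 2 y_2 = 0` in the product
of two projective planes is smooth and irreducible and is not rational (it is a K3 surface), so that
its first projection to the plane, which is purely inseparable of degree two, is a map of minimal
degree. The preimage of a general line is a rational curve: its gonality is one.
-/

set_option autoImplicit false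

namespace Pool.Agent.Results.MP_83f7cc_ag.CharacteristicTwo

open MvPolynomial Pool.Agent.V1156.Ins

/-- **Theorem.** Over every algebraically closed field of characteristic two there is a smooth
irreducible surface `Z` in the product of two projective planes such that the first projection
`(x, y) ↦ x`, that is the map `(1 : x_1 / x_0 : x_2 / x_0)`, is a dominant rational map from `Z` to
the plane of minimal degree, of degree two, while the preimage of a general line is an irreducible
curve of gonality one. -/
theorem result (k : Type*) [Field k] [IsAlgClosed k] [CharP k 2] :
    ∃ f g : MvPolynomial Ix k, IsSmoothSurface f g ∧ ∃ _ : Irred (zeros {f, g}),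
      FirstProjectionIsMinimal (zeros {f, g}) 2 ∧ GeneralPreimageHasGonality (zeros {f, g}) 1 := by
  have hp : Fact (Nat.Prime 2) := ⟨Nat.prime_two⟩
  refine ⟨fX k 2, gX k 2, smooth_surf, irred_surf (p := 2), ⟨⟨dominant_pr k 2, ?_⟩, degree_pr k 2⟩,
    general_line k 2⟩
  intro a b hab
  have h2 := two_le_degree (p := 2) hab
  have hdeg := degree_pr k 2
  change mapDegree k (ratioX (surf k 2) 1 0) (ratioX (surf k 2) 2 0) ≤ _
  rw [hdeg]
  exact_mod_cast h2

end Pool.Agent.Results.MP_83f7cc_ag.CharacteristicTwo
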